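import Pool.Agent.V119.SelfInv

set_option autoImplicit false

namespace Pool.Agent.Results.MP_e6e7b2_al.PolynomialYesSeriesNo

open MvPowerSeries Pool.Agent.V119.SelfInv

section Example

variable {n : ℕ} (a b c : Fin n)

/-- The constant power series `i`. -/
noncomputable def J : MvPowerSeries (Fin n) ℂ := C Complex.I

lemma J_sq : (J : MvPowerSeries (Fin n) ℂ) * J = -1 := by
  unfold J
  rw [← map_mul, Complex.I_mul_I, map_neg, map_one]

/-- `2 - (z_a - i z_b)` -/
noncomputable def W : MvPowerSeries (Fin n) ℂ := C 2 - (X a - J * X b)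

/-- the inverse of `W` -/
noncomputable def V : MvPowerSeries (Fin n) ℂ := (W a b)⁻¹

noncomputable def Y : MvPowerSeries (Fin n) ℂ := X c * V a b

/-- `P₁ = z_a + i z_b - z_c² / (2 - z_a + i z_b)` -/
noncomputable def P₁ : MvPowerSeries (Fin n) ℂ := (X a + J * X b) - X c * Y a b c

lemma VW : V a b * W a b = 1 := by
  unfold V
  apply MvPowerSeries.inv_mul_cancel
  simp [W]

lemma YW : Y a b c * W a b = X c := by
  unfold Y
  rw [mul_assoc, VW, mul_one]

lemma cc_Y : constantCoeff (Y a b c) = 0 := by simp [Y]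

lemma cc_P₁ : constantCoeff (P₁ a b c) = 0 := by simp [P₁]

/-- partial derivatives of the coordinate `z_x` -/
noncomputable def δ (x j : Fin n) : MvPowerSeries (Fin n) ℂ := if j = x then 1 else 0

lemma pd_X (x j : Fin n) : pderiv ℂ j (X x) = (δ x j : MvPowerSeries (Fin n) ℂ) := by
  unfold δ
  split_ifs with h
  · rw [h, pderiv_X_self]
  · rw [pderiv_X_of_ne (Ne.symm h)]

lemma pd_J (j : Fin n) : pderiv ℂ j (J : MvPowerSeries (Fin n) ℂ) = 0 := pderiv_C

lemma pd_mul (j : Fin n) (f g : MvPowerSeries (Fin n) ℂ) :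
    pderiv ℂ j (f * g) = f * pderiv ℂ j g + g * pderiv ℂ j f := by
  rw [Derivation.leibniz, smul_eq_mul, smul_eq_mul]

lemma pd_W (j : Fin n) : pderiv ℂ j (W a b) = -(δ a j - J * δ b j) := by
  unfold W
  rw [map_sub, map_sub, pd_mul, pd_J, pd_X, pd_X, pderiv_C]
  ring

lemma pd_V (j : Fin n) : pderiv ℂ j (V a b) = V a b ^ 2 * (δ a j - J * δ b j) := by
  unfold V
  rw [pderiv_inv', pd_W]
  ring

lemma pd_Y (j : Fin n) : pderiv ℂ j (Y a b c) =
    V a b * δ c j + Y a b c * V a b * (δ a j - J * δ b j) := by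
  unfold Y
  rw [pd_mul, pd_V, pd_X]
  ring

/-- the gradient of `P₁` -/
noncomputable def N (j : Fin n) : MvPowerSeries (Fin n) ℂ :=
  (δ a j + J * δ b j) - 2 * Y a b c * δ c j - Y a b c ^ 2 * (δ a j - J * δ b j)

lemma pd_P₁ (j : Fin n) : pderiv ℂ j (P₁ a b c) = N a b c j := by
  unfold P₁ N
  rw [map_sub, map_add, pd_mul, pd_mul, pd_J, pd_X, pd_X, pd_X, pd_Y]
  have h : X c * V a b = Y a b c := rfl
  linear_combination (-(δ c j) - Y a b c * (δ a j - J * δ b j)) * h

lemma pd_P (j : Fin n) : pderiv ℂ j (P₁ a b c ^ 2) = 2 * P₁ a b c * N a b c j := by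
  rw [pow_two, pd_mul, pd_P₁]
  ring

lemma cc_N (j : Fin n) : constantCoeff (N a b c j) =
    (if j = a then 1 else 0) + Complex.I * (if j = b then 1 else 0) := by
  unfold N δ J
  rw [map_sub, map_sub, map_mul, map_mul, map_mul, map_pow, cc_Y, map_add, map_mul,
    constantCoeff_C]
  split_ifs <;> simp

lemma pd_two (i : Fin n) : pderiv ℂ i (2 : MvPowerSeries (Fin n) ℂ) = 0 := by
  have h : (2 : MvPowerSeries (Fin n) ℂ) = C 2 := (map_ofNat C 2).symm
  rw [h, pderiv_C]

lemma cc_two : constantCoeff (2 : MvPowerSeries (Fin n) ℂ) = 2 := map_ofNat _ 2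

lemma pd_N (i j : Fin n) : pderiv ℂ i (N a b c j) =
    -(2 * pderiv ℂ i (Y a b c) * δ c j) - 2 * Y a b c * pderiv ℂ i (Y a b c) * (δ a j - J * δ b j) := by
  have hδ : ∀ x : Fin n, pderiv ℂ i (δ x j : MvPowerSeries (Fin n) ℂ) = 0 := by
    intro x
    unfold δ
    split_ifs
    · exact pderiv_one
    · exact map_zero _
  unfold N
  rw [map_sub, map_sub, map_add, pd_mul, pd_mul, pd_mul, pd_mul, pow_two, pd_mul, map_sub, pd_mul,
    hδ, hδ, hδ, pd_J, pd_two]
  ring

variable {a b c}

lemma sum3 {M : Type*} [AddCommMonoid M] (hab : a ≠ b) (hac : a ≠ c) (hbc : b ≠ c) (f : Fin n → M)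
    (h : ∀ i, i ≠ a → i ≠ b → i ≠ c → f i = 0) : ∑ i, f i = f a + (f b + f c) := by
  rw [← Finset.sum_subset (Finset.subset_univ {a, b, c})]
  · rw [Finset.sum_insert, Finset.sum_insert, Finset.sum_singleton]
    · simpa using hbc
    · simp [hab, hac]
  · intro x _ hx
    simp only [Finset.mem_insert, Finset.mem_singleton, not_or] at hx
    exact h x hx.1 hx.2.1 hx.2.2

lemma N_a (hab : a ≠ b) (hac : a ≠ c) : N a b c a = 1 - Y a b c ^ 2 := by
  simp [N, δ, hab, hac]

lemma N_b (hab : a ≠ b) (hbc : b ≠ c) : N a b c b = J * (1 + Y a b c ^ 2) := by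
  simp only [N, δ, hab.symm, hbc, if_true, if_false]
  ring

lemma N_c (hac : a ≠ c) (hbc : b ≠ c) : N a b c c = - (2 * Y a b c) := by
  simp only [N, δ, hac.symm, hbc.symm, if_true, if_false]
  ring

lemma N_of_ne {i : Fin n} (h1 : i ≠ a) (h2 : i ≠ b) (h3 : i ≠ c) : N a b c i = 0 := by
  simp [N, δ, h1, h2, h3]

lemma invariance (hab : a ≠ b) (hac : a ≠ c) (hbc : b ≠ c) (s : ℂ) (i : Fin n) :
    subst (fun j => X j - C s * pderiv ℂ j (P₁ a b c ^ 2)) (X i + C s * pderiv ℂ i (P₁ a b c ^ 2)) =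
      (X i : MvPowerSeries (Fin n) ℂ) := by
  have hF : HasSubst (fun j => X j - C s * pderiv ℂ j (P₁ a b c ^ 2)) := by
    apply hasSubst_of_constantCoeff_zero
    intro j
    rw [pd_P]
    simp [cc_P₁]
  rw [← coe_substAlgHom hF]
  set φ : MvPowerSeries (Fin n) ℂ →ₐ[ℂ] MvPowerSeries (Fin n) ℂ := substAlgHom hF with hφ
  have hX : ∀ j, φ (X j) = X j - C s * (2 * P₁ a b c * N a b c j) := by
    intro j
    rw [hφ, substAlgHom_X, pd_P]
  have hC : ∀ r : ℂ, φ (C r) = C r := fun r => by
    have := φ.commutes r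
    rwa [show (algebraMap ℂ (MvPowerSeries (Fin n) ℂ)) r = C r from rfl] at this
  have hJ : φ J = J := hC _
  have h2 : φ 2 = 2 := map_ofNat φ 2
  have hW : φ (W a b) = W a b + 4 * C s * P₁ a b c := by
    unfold W
    rw [map_sub, map_sub, map_mul, hJ, hX, hX, hC, N_a hab hac, N_b hab hbc]
    linear_combination (-(2 * C s * P₁ a b c * (1 + Y a b c ^ 2))) * (J_sq (n := n))
  have hVW : φ (V a b) * φ (W a b) = 1 := by rw [← map_mul, VW, map_one]
  have hXc : φ (X c) = X c + 4 * C s * P₁ a b c * Y a b c := by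
    rw [hX, N_c hac hbc]
    ring
  have hY : φ (Y a b c) = Y a b c := by
    have h1 : φ (Y a b c) = φ (X c) * φ (V a b) := by
      unfold Y
      rw [map_mul]
    have h2 := YW a b c
    rw [h1, hXc, ← h2]
    rw [hW] at hVW
    linear_combination (Y a b c) * hVW
  have hP : φ (P₁ a b c) = P₁ a b c := by
    have h1 : φ (P₁ a b c) = (φ (X a) + φ J * φ (X b)) - φ (X c) * φ (Y a b c) := by
      unfold P₁
      rw [map_sub, map_add, map_mul, map_mul]
    rw [h1, hXc, hY, hJ, hX, hX, N_a hab hac, N_b hab hbc]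
    have h2 : P₁ a b c = (X a + J * X b) - X c * Y a b c := rfl
    linear_combination (-(2 * C s * P₁ a b c * (1 + Y a b c ^ 2))) * (J_sq (n := n)) - h2
  have hδ : ∀ x j : Fin n, φ (δ x j) = δ x j := by
    intro x j
    unfold δ
    split_ifs
    · exact map_one _
    · exact map_zero _
  have hN : ∀ j, φ (N a b c j) = N a b c j := by
    intro j
    unfold N
    simp only [map_sub, map_add, map_mul, map_pow, hδ, hJ, hY, h2]
  rw [map_add, map_mul, hC, hX, pd_P, map_mul, map_mul, h2, hP, hN]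
  ring

lemma selfInverting (hab : a ≠ b) (hac : a ≠ c) (hbc : b ≠ c) : SelfInverting (P₁ a b c ^ 2) := by
  have ho : 2 ≤ (P₁ a b c ^ 2).order := by
    have := le_order_pow_of_constantCoeff_eq_zero 2 (cc_P₁ a b c)
    exact_mod_cast this
  refine ⟨ho, ⟨2, ?_⟩, ho, ?_, ?_⟩
  · have hH : ∀ i j, hessianAtZero (P₁ a b c ^ 2) i j =
        2 * constantCoeff (N a b c i) * constantCoeff (N a b c j) := by
      intro i j
      simp only [hessianAtZero, Matrix.of_apply]
      rw [pd_P, pd_mul, map_add, map_mul, map_mul, map_mul, cc_P₁]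
      have h2 : pderiv ℂ i (2 * P₁ a b c) = 2 * N a b c i := by
        rw [two_mul, map_add, pd_P₁]
        ring
      rw [h2, map_mul, cc_two]
      ring
    apply Matrix.ext
    intro i j
    rw [pow_two, Matrix.mul_apply, Matrix.zero_apply]
    have h3 : ∀ k, hessianAtZero (P₁ a b c ^ 2) i k * hessianAtZero (P₁ a b c ^ 2) k j =
        4 * constantCoeff (N a b c i) * constantCoeff (N a b c j) *
          constantCoeff (N a b c k) ^ 2 := by
      intro k
      rw [hH, hH]
      ring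
    rw [Finset.sum_congr rfl fun k _ => h3 k, ← Finset.mul_sum, sum3 hab hac hbc]
    · rw [cc_N a b c a, cc_N a b c b, cc_N a b c c]
      simp [hab, hac.symm, hbc.symm, hab.symm]
    · intro k h1 h2 _
      rw [cc_N]
      simp [h1, h2]
  · intro i
    have h := invariance hab hac hbc 1 i
    simpa only [map_one, one_mul] using h
  · intro i
    have h := invariance hab hac hbc (-1) i
    simpa only [map_neg, map_one, neg_mul, one_mul, sub_neg_eq_add, ← sub_eq_add_neg] using h

lemma not_HN (hab : a ≠ b) (hac : a ≠ c) (hbc : b ≠ c) : ¬ HN (P₁ a b c ^ 2) := by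
  intro h
  have h1 := (Matrix.isNilpotent_trace_of_isNilpotent h).eq_zero
  have h2 : Matrix.trace (hessian (P₁ a b c ^ 2)) = -4 * P₁ a b c * V a b := by
    rw [Matrix.trace, sum3 hab hac hbc]
    · simp only [Matrix.diag, hessian, Matrix.of_apply, pd_P, pd_mul]
      simp only [pd_two, pd_N, pd_P₁, pd_Y]
      simp only [N_a hab hac, N_b hab hbc, N_c hac hbc]
      simp only [δ, hab, hac, hbc, hab.symm, hac.symm, hbc.symm, if_true, if_false]
      have h5 := J_sq (n := n)
      linear_combination (2 * (1 + Y a b c ^ 2) ^ 2 + 4 * P₁ a b c * Y a b c ^ 2 * V a b * (-1)) * h5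
    · intro i h1 h2 h3
      simp only [Matrix.diag, hessian, Matrix.of_apply, pd_P, N_of_ne h1 h2 h3, mul_zero, map_zero]
  rw [h2] at h1
  have hV : V a b ≠ 0 := by
    intro h
    have := VW a b
    rw [h, zero_mul] at this
    exact zero_ne_one this
  have hP : P₁ a b c ≠ 0 := by
    intro h
    have h3 := congrArg constantCoeff (pd_P₁ a b c a)
    rw [h, map_zero, cc_N] at h3
    simp [hab] at h3
  have h4 : (-4 : MvPowerSeries (Fin n) ℂ) ≠ 0 := by
    intro h
    have h3 := congrArg constantCoeff h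
    rw [map_neg, map_zero, show constantCoeff (4 : MvPowerSeries (Fin n) ℂ) = 4 from
      map_ofNat _ 4] at h3
    norm_num at h3
  rcases mul_eq_zero.mp h1 with h5 | h5
  · rcases mul_eq_zero.mp h5 with h6 | h6
    · exact h4 h6
    · exact hP h6
  · exact hV h5

end Example

/-- **Self-inverting polynomials are Hessian nilpotent, in any number of variables; self-inverting
formal power series need not be: there are counterexamples in every number `n ≥ 3` of variables.** -/
theorem result :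
    (∀ (n : ℕ) (P : MvPolynomial (Fin n) ℂ), SelfInverting (P : MvPowerSeries (Fin n) ℂ) →
      HN (P : MvPowerSeries (Fin n) ℂ)) ∧
    (∀ n : ℕ, 3 ≤ n → ∃ P : MvPowerSeries (Fin n) ℂ, SelfInverting P ∧ ¬ HN P) := by
  refine ⟨fun n P h => polynomial_HN P h, fun n hn => ?_⟩
  have hab : (⟨0, by omega⟩ : Fin n) ≠ ⟨1, by omega⟩ := by simp
  have hac : (⟨0, by omega⟩ : Fin n) ≠ ⟨2, by omega⟩ := by simp
  have hbc : (⟨1, by omega⟩ : Fin n) ≠ ⟨2, by omega⟩ := by simp
  exact ⟨_, selfInverting hab hac hbc, not_HN hab hac hbc⟩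

end Pool.Agent.Results.MP_e6e7b2_al.PolynomialYesSeriesNo
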